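import Pool.Agent.helper51.RMX.Spec

/-!
Row rmx:PSX: the new odd characters of the kernel of a character of order `2^a q^j` are its powers with exponent prime to the order.
-/

set_option autoImplicit false

namespace Pool.Agent.RMX

open Pool.Agent.RB NumberField IsDedekindDomain Module
open scoped nonZeroDivisors Real Classical IsMulCommutative

theorem PSX_gen {G : Type} [CommGroup G] [Finite G] (χ : G →* ℂˣ) :
    ∃ s : G, ∀ σ, ∃ i : ℕ, χ σ = χ s ^ i := by
  have hfin : Finite χ.range := by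
    have h1 : Function.Surjective χ.rangeRestrict := χ.rangeRestrict_surjective
    exact Finite.of_surjective _ h1
  obtain ⟨⟨ζ, hζ⟩, hgen⟩ := (isCyclic_subgroup_units χ.range).exists_generator
  obtain ⟨s, rfl⟩ := hζ
  refine ⟨s, ?_⟩
  intro σ
  have h1 := hgen ⟨χ σ, ⟨σ, rfl⟩⟩
  obtain ⟨k, hk⟩ := h1
  have h2 : χ s ^ k = χ σ := congrArg Subtype.val hk
  have h3 : χ σ ∈ Subgroup.zpowers (χ s) := ⟨k, h2⟩
  have h4 : IsOfFinOrder (χ s) := by
    have h5 : IsOfFinOrder s := isOfFinOrder_of_finite s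
    exact MonoidHom.isOfFinOrder χ h5
  obtain ⟨i, hi⟩ := h4.mem_powers_iff_mem_zpowers.2 h3
  exact ⟨i, hi.symm⟩

theorem PSX_ord {G : Type} [CommGroup G] [Finite G] (χ : G →* ℂˣ) (s : G)
    (hs : ∀ σ, ∃ i : ℕ, χ σ = χ s ^ i) : orderOf (χ s) = orderOf χ := by
  apply Nat.dvd_antisymm
  · apply orderOf_dvd_of_pow_eq_one
    have h1 : (χ ^ orderOf χ) s = 1 := by
      rw [pow_orderOf_eq_one, MonoidHom.one_apply]
    rw [← MonoidHom.pow_apply]
    exact h1
  · apply orderOf_dvd_of_pow_eq_one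
    ext σ
    obtain ⟨i, hi⟩ := hs σ
    rw [MonoidHom.pow_apply, hi, ← pow_mul, mul_comm, pow_mul, pow_orderOf_eq_one, one_pow,
      MonoidHom.one_apply]

theorem PSX_card {G : Type} [CommGroup G] [Finite G] (χ : G →* ℂˣ) :
    Nat.card G = Nat.card χ.ker * orderOf χ := by
  obtain ⟨s, hs⟩ := PSX_gen χ
  have h1 := Subgroup.card_mul_index χ.ker
  have h2 : χ.range = Subgroup.zpowers (χ s) := by
    ext x
    constructor
    · rintro ⟨σ, rfl⟩
      obtain ⟨i, hi⟩ := hs σ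
      rw [hi]
      exact Subgroup.npow_mem_zpowers _ _
    · intro hx
      obtain ⟨k, rfl⟩ := hx
      exact ⟨s ^ k, map_zpow χ s k⟩
  rw [Subgroup.index_ker, h2, Nat.card_zpowers, PSX_ord χ s hs] at h1
  exact h1.symm

theorem PSX_neg (j : ℕ) : ((-1 : ℂˣ) ^ j = -1) ↔ Odd j := by
  constructor
  · intro h
    rcases Nat.even_or_odd j with he | ho
    · rw [he.neg_one_pow] at h
      have h5 : ((1 : ℂˣ) : ℂ) = ((-1 : ℂˣ) : ℂ) := congrArg Units.val h
      rw [Units.val_neg, Units.val_one] at h5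
      norm_num at h5
    · exact ho
  · intro h
    exact h.neg_one_pow

theorem PSX_triv {G : Type} [CommGroup G] [Finite G] (χ : G →* ℂˣ) (q M i : ℕ) (hq : 0 < q)
    (hN : orderOf χ = q * M) :
    (∀ b ∈ (χ ^ q).ker, (χ ^ i) b = 1) ↔ q ∣ i := by
  obtain ⟨s, hs⟩ := PSX_gen χ
  have ho := PSX_ord χ s hs
  have hM : 0 < M := by
    rcases Nat.eq_zero_or_pos M with h | h
    · exfalso
      have h1 : 0 < orderOf (χ s) := by
        have h5 : IsOfFinOrder s := isOfFinOrder_of_finite s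
        exact (MonoidHom.isOfFinOrder χ h5).orderOf_pos
      rw [ho, hN, h] at h1
      simp at h1
    · exact h
  constructor
  · intro h
    have h1 : s ^ M ∈ (χ ^ q).ker := by
      rw [MonoidHom.mem_ker, MonoidHom.pow_apply, map_pow, ← pow_mul, mul_comm, ← hN, ← ho,
        pow_orderOf_eq_one]
    have h2 := h _ h1
    rw [MonoidHom.pow_apply, map_pow, ← pow_mul] at h2
    have h3 := orderOf_dvd_of_pow_eq_one h2
    rw [ho, hN, mul_comm q M] at h3
    exact Nat.dvd_of_mul_dvd_mul_left hM h3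
  · rintro ⟨k, rfl⟩ b hb
    rw [MonoidHom.mem_ker, MonoidHom.pow_apply] at hb
    rw [MonoidHom.pow_apply, pow_mul, hb, one_pow]

theorem PSX : PSX_stmt := by
  intro G _ _ c χ a j q hq hq2 ha hj hord hc
  have hodd : Odd q := hq.odd_of_ne_two hq2
  obtain ⟨s, hs⟩ := PSX_gen χ
  have ho := PSX_ord χ s hs
  have hN : orderOf χ = q * (2 ^ a * q ^ (j - 1)) := by
    rw [hord]
    obtain ⟨j', rfl⟩ := Nat.exists_eq_add_of_le hj
    rw [Nat.add_sub_cancel_left, pow_add, pow_one]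
    ring
  have hNpos : 0 < orderOf χ := by
    rw [hord]
    have := hq.pos
    positivity
  have hker : χ.ker ≤ (χ ^ q).ker := by
    intro x hx
    rw [MonoidHom.mem_ker] at hx ⊢
    rw [MonoidHom.pow_apply, hx, one_pow]
  have hcq : (χ ^ q) c = -1 := by
    rw [MonoidHom.pow_apply, hc]
    exact hodd.neg_one_pow
  have h11 : (-1 : ℂˣ) ≠ 1 := by
    intro h
    have := (PSX_neg 0).1 (by rw [pow_zero, h])
    simp at this
  have hcn : c ∉ (χ ^ q).ker := by
    rw [MonoidHom.mem_ker, hcq]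
    exact h11
  have hcard : Nat.card (χ ^ q).ker = q * Nat.card χ.ker := by
    have h1 := PSX_card χ
    have h2 := PSX_card (χ ^ q)
    have h3 : orderOf (χ ^ q) = 2 ^ a * q ^ (j - 1) := by
      rw [orderOf_pow_of_dvd hq.ne_zero (Dvd.intro _ hN.symm), hN, Nat.mul_div_cancel_left _ hq.pos]
    have h4 : 0 < 2 ^ a * q ^ (j - 1) := by
      have := hq.pos
      positivity
    rw [h3] at h2
    rw [h2, hN] at h1
    apply Nat.eq_of_mul_eq_mul_right h4
    rw [h1]
    ring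
  refine ⟨hker, hcn, hcard, ?_⟩
  intro g
  have hmem : ∀ (B : Subgroup G) (ψ : G →* ℂˣ), ψ ∈ Psi B c ↔ (∀ b ∈ B, ψ b = 1) ∧ ψ c = -1 := by
    intro B ψ
    unfold Psi
    rw [Finset.mem_filter]
    exact ⟨fun h => h.2, fun h => ⟨Finset.mem_univ _, h⟩⟩
  have hmem2 : ∀ ψ : G →* ℂˣ, ψ ∈ PsN χ.ker (χ ^ q).ker c ↔
      (∀ b ∈ χ.ker, ψ b = 1) ∧ ψ c = -1 ∧ ¬ (∀ b ∈ (χ ^ q).ker, ψ b = 1) := by
    intro ψ
    unfold PsN
    rw [Finset.mem_sdiff, hmem, hmem]
    tauto
  have hcop : ∀ i : ℕ, Nat.Coprime i (2 ^ a * q ^ j) ↔ Odd i ∧ ¬ q ∣ i := by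
    intro i
    rw [Nat.coprime_mul_iff_right, Nat.coprime_pow_right_iff (by omega),
      Nat.coprime_pow_right_iff (by omega), Nat.coprime_two_right, Nat.coprime_comm,
      Nat.Prime.coprime_iff_not_dvd hq]
  symm
  apply Finset.prod_nbij (fun i => χ ^ i)
  · intro i hi
    rw [Finset.mem_filter, hcop] at hi
    rw [hmem2]
    refine ⟨fun b hb => ?_, ?_, ?_⟩
    · rw [MonoidHom.pow_apply, MonoidHom.mem_ker.1 hb, one_pow]
    · rw [MonoidHom.pow_apply, hc]
      exact hi.2.1.neg_one_pow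
    · rw [PSX_triv χ q _ i hq.pos hN]
      exact hi.2.2
  · intro i hi k hk hik
    have hi' := Finset.mem_filter.1 hi
    have hk' := Finset.mem_filter.1 hk
    have h1 : χ s ^ i = χ s ^ k := by
      have h2 := DFunLike.congr_fun hik s
      simpa [MonoidHom.pow_apply] using h2
    apply pow_injOn_Iio_orderOf (x := χ s) _ _ h1
    · rw [Set.mem_Iio, ho, hord]
      exact Finset.mem_range.1 hi'.1
    · rw [Set.mem_Iio, ho, hord]
      exact Finset.mem_range.1 hk'.1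
  · intro ψ hψ
    obtain ⟨hψ1, hψ2, hψ3⟩ := (hmem2 ψ).1 hψ
    choose i hi using hs
    have hprim : IsPrimitiveRoot ((χ s : ℂˣ) : ℂ) (2 ^ a * q ^ j) := by
      rw [IsPrimitiveRoot.coe_units_iff, IsPrimitiveRoot.iff_orderOf, ho, hord]
    have hs1 : χ (s ^ (2 ^ a * q ^ j)) = 1 := by
      rw [map_pow, ← hord, ← ho, pow_orderOf_eq_one]
    have h1 : ψ s ^ (2 ^ a * q ^ j) = 1 := by
      rw [← map_pow]
      exact hψ1 _ (MonoidHom.mem_ker.2 hs1)
    have h2 : ((ψ s : ℂˣ) : ℂ) ^ (2 ^ a * q ^ j) = 1 := by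
      rw [← Units.val_pow_eq_pow_val, h1, Units.val_one]
    have : NeZero (2 ^ a * q ^ j) := ⟨by rw [← hord]; exact hNpos.ne'⟩
    obtain ⟨k, hk, hk2⟩ := hprim.eq_pow_of_pow_eq_one h2
    have h3 : ψ s = χ s ^ k := by
      apply Units.ext
      rw [Units.val_pow_eq_pow_val]
      exact hk2.symm
    have h4 : χ ^ k = ψ := by
      ext σ
      have h5 : σ * (s ^ i σ)⁻¹ ∈ χ.ker := by
        rw [MonoidHom.mem_ker, map_mul, map_inv, map_pow, ← hi σ, mul_inv_cancel]
      have h6 := hψ1 _ h5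
      rw [map_mul, map_inv, map_pow, mul_inv_eq_one] at h6
      rw [h6, h3, MonoidHom.pow_apply, hi σ, ← pow_mul, ← pow_mul, mul_comm]
    refine ⟨k, ?_, h4⟩
    rw [Finset.mem_coe, Finset.mem_filter, Finset.mem_range, hcop]
    refine ⟨hk, ?_, ?_⟩
    · have h7 : (χ ^ k) c = -1 := by rw [h4, hψ2]
      rw [MonoidHom.pow_apply, hc] at h7
      exact (PSX_neg k).1 h7
    · intro hqk
      apply hψ3
      rw [← h4]
      exact (PSX_triv χ q _ k hq.pos hN).2 hqk
  · intro i _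
    rfl

end Pool.Agent.RMX
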